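import Pool.Agent.N869.GK.L.Stm
import Pool.Agent.Y948.CQ.C2A

/-!
# GK/KAP: the numbers `kap`
-/

set_option autoImplicit false

namespace Pool.Agent.N495.GK

open Finset Filter Topology
open Pool.Agent.N869.GK (c4 kap S_KAP)

/-- the products -/
noncomputable def a (n : ℕ) : ℝ := ∏ i ∈ range n, (2 / (2 ^ (i + 1) - 1) : ℝ)

theorem kap_eq (n : ℕ) : kap n = c4 * a n := rfl

theorem den_pos (i : ℕ) : (0 : ℝ) < 2 ^ (i + 1) - 1 := by
  have : (1 : ℝ) < 2 ^ (i + 1) := one_lt_pow₀ (by norm_num) (by omega)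
  linarith

theorem a_pos (n : ℕ) : 0 < a n := by
  unfold a
  exact Finset.prod_pos fun i _ => div_pos (by norm_num) (den_pos i)

theorem a_zero : a 0 = 1 := by simp [a]

theorem a_succ (n : ℕ) : a (n + 1) * (2 ^ (n + 1) - 1) = 2 * a n := by
  unfold a
  rw [Finset.prod_range_succ]
  have := (den_pos n).ne'
  field_simp

theorem a_le (n : ℕ) : a (n + 1) ≤ 2 * (2 / 3 : ℝ) ^ n := by
  induction n with
  | zero =>
    have h := a_succ 0
    rw [a_zero] at h
    norm_num at h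
    norm_num
    linarith
  | succ n ih =>
    have h := a_succ (n + 1)
    have h2 : (3 : ℝ) ≤ 2 ^ (n + 1 + 1) - 1 := by
      have : (2 : ℝ) ^ 2 ≤ 2 ^ (n + 1 + 1) := pow_le_pow_right₀ (by norm_num) (by omega)
      norm_num at this ⊢
      linarith
    have h3 := a_pos (n + 1 + 1)
    have h4 : a (n + 1 + 1) * 3 ≤ 2 * a (n + 1) := by
      rw [← h]
      exact mul_le_mul_of_nonneg_left h2 h3.le
    rw [pow_succ]
    linarith

theorem a_summable : Summable a := by
  rw [← summable_nat_add_iff 1]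
  refine Summable.of_nonneg_of_le (fun n => (a_pos _).le) a_le ?_
  exact (summable_geometric_of_lt_one (by norm_num) (by norm_num)).mul_left 2

/-- the generating function -/
noncomputable def F (z : ℝ) : ℝ := ∑' n, a n * z ^ n

theorem F_hasSum {z : ℝ} (hz : |z| ≤ 1) : HasSum (fun n => a n * z ^ n) (F z) := by
  apply Summable.hasSum
  refine Summable.of_norm_bounded a_summable fun n => ?_
  rw [norm_mul, norm_pow, Real.norm_eq_abs, Real.norm_eq_abs, abs_of_pos (a_pos n)]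
  exact mul_le_of_le_one_right (a_pos n).le (pow_le_one₀ (abs_nonneg z) hz)

theorem F_func {z : ℝ} (hz : |z| ≤ 1) : F z = (1 + z) * F (z / 2) := by
  have hz2 : |z / 2| ≤ 1 := by
    rw [abs_div, abs_of_pos (by norm_num : (0 : ℝ) < 2)]
    linarith [abs_nonneg z]
  have h1 := F_hasSum hz
  have h2 := F_hasSum hz2
  have h3 := h1.sub h2
  have h4 := (hasSum_nat_add_iff' 1).2 h3
  simp only [Finset.range_one, Finset.sum_singleton, pow_zero, sub_self, sub_zero] at h4
  have h5 := h2.mul_left z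
  have e : (fun n : ℕ => a (n + 1) * z ^ (n + 1) - a (n + 1) * (z / 2) ^ (n + 1)) =
      fun n : ℕ => z * (a n * (z / 2) ^ n) := by
    funext n
    have h6 := a_succ n
    have h7 : z ^ (n + 1) = 2 ^ (n + 1) * (z / 2) ^ (n + 1) := by
      rw [← mul_pow]
      congr 1
      ring
    calc a (n + 1) * z ^ (n + 1) - a (n + 1) * (z / 2) ^ (n + 1)
        = (a (n + 1) * (2 ^ (n + 1) - 1)) * (z / 2) ^ (n + 1) := by rw [h7]; ring
      _ = 2 * a n * (z / 2) ^ (n + 1) := by rw [h6]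
      _ = _ := by rw [pow_succ]; ring
  rw [e] at h4
  have h8 := h4.unique h5
  linarith

theorem F_prod (n : ℕ) : F 1 = (∏ i ∈ range n, (1 + (1 / 2 : ℝ) ^ i)) * F ((1 / 2) ^ n) := by
  induction n with
  | zero => simp
  | succ n ih =>
    have h1 : |(1 / 2 : ℝ) ^ n| ≤ 1 := by
      rw [abs_of_pos (by positivity)]
      exact pow_le_one₀ (by norm_num) (by norm_num)
    rw [ih, F_func h1, Finset.prod_range_succ, pow_succ]
    have e : (1 / 2 : ℝ) ^ n / 2 = (1 / 2) ^ n * (1 / 2) := by ring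
    rw [e]
    ring

theorem F_near {z : ℝ} (h0 : 0 ≤ z) (h1 : z ≤ 1) : |F z - 1| ≤ z * ∑' n, a (n + 1) := by
  have hz : |z| ≤ 1 := by rw [abs_of_nonneg h0]; exact h1
  have h2 := (hasSum_nat_add_iff' 1).2 (F_hasSum hz)
  simp only [Finset.range_one, Finset.sum_singleton, pow_zero, a_zero, mul_one] at h2
  have hs : Summable (fun n => a (n + 1)) := (summable_nat_add_iff 1).2 a_summable
  have h3 : HasSum (fun n => z * a (n + 1)) (z * ∑' n, a (n + 1)) := hs.hasSum.mul_left z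
  rw [abs_le]
  have hle : F z - 1 ≤ z * ∑' n, a (n + 1) := by
    apply hasSum_le _ h2 h3
    intro n
    rw [pow_succ, mul_comm z]
    have : z ^ n ≤ 1 := pow_le_one₀ h0 h1
    have hp := a_pos (n + 1)
    calc a (n + 1) * (z ^ n * z) ≤ a (n + 1) * (1 * z) := by gcongr
      _ = a (n + 1) * z := by ring
  have hge : 0 ≤ F z - 1 := by
    apply h2.nonneg
    intro n
    exact mul_nonneg (a_pos _).le (pow_nonneg h0 _)
  have hnn : 0 ≤ z * ∑' n, a (n + 1) := mul_nonneg h0 (tsum_nonneg fun n => (a_pos _).le)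
  constructor <;> linarith

theorem F_tend : Tendsto (fun n : ℕ => F ((1 / 2) ^ n)) atTop (𝓝 1) := by
  rw [tendsto_iff_norm_sub_tendsto_zero]
  have h1 : Tendsto (fun n : ℕ => (1 / 2 : ℝ) ^ n * ∑' n, a (n + 1)) atTop
      (𝓝 (0 * ∑' n, a (n + 1))) :=
    (tendsto_pow_atTop_nhds_zero_of_lt_one (by norm_num) (by norm_num)).mul_const _
  rw [zero_mul] at h1
  refine squeeze_zero (fun n => norm_nonneg _) (fun n => ?_) h1
  rw [Real.norm_eq_abs]
  exact F_near (by positivity) (pow_le_one₀ (by norm_num) (by norm_num))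

/-- the finite products -/
theorem prods (n : ℕ) : (∏ i ∈ range n, (1 - (1 / 2 : ℝ) ^ (2 * i + 1))) *
    ((∏ i ∈ range n, (1 + (1 / 2 : ℝ) ^ (i + 1))) * ∏ i ∈ range n, (1 - (1 / 2 : ℝ) ^ (i + 1))) =
    ∏ i ∈ range (2 * n), (1 - (1 / 2 : ℝ) ^ (i + 1)) := by
  induction n with
  | zero => simp
  | succ n ih =>
    have e : 2 * (n + 1) = 2 * n + 1 + 1 := by ring
    rw [e, Finset.prod_range_succ, Finset.prod_range_succ, Finset.prod_range_succ,
      Finset.prod_range_succ, Finset.prod_range_succ, ← ih]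
    have e2 : (1 / 2 : ℝ) ^ (2 * n + 1 + 1) = (1 / 2 : ℝ) ^ (n + 1) * (1 / 2 : ℝ) ^ (n + 1) := by
      rw [← pow_add]
      congr 1
      ring
    rw [e2]
    ring

theorem tail_ge (n m : ℕ) : 1 - (1 / 2 : ℝ) ^ n + (1 / 2 : ℝ) ^ (n + m) ≤
    ∏ i ∈ range m, (1 - (1 / 2 : ℝ) ^ (n + i + 1)) ∧
    ∏ i ∈ range m, (1 - (1 / 2 : ℝ) ^ (n + i + 1)) ≤ 1 := by
  induction m with
  | zero => simp
  | succ m ih =>
    obtain ⟨h1, h2⟩ := ih
    rw [Finset.prod_range_succ]
    set B := ∏ i ∈ range m, (1 - (1 / 2 : ℝ) ^ (n + i + 1)) with hB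
    have hy : (1 / 2 : ℝ) ^ (n + m) = 2 * (1 / 2 : ℝ) ^ (n + m + 1) := by
      rw [pow_succ]
      ring
    have hy0 : 0 < (1 / 2 : ℝ) ^ (n + m + 1) := by positivity
    have hy1 : (1 / 2 : ℝ) ^ (n + m + 1) ≤ 1 := pow_le_one₀ (by norm_num) (by norm_num)
    have hx1 : (1 / 2 : ℝ) ^ n ≤ 1 := pow_le_one₀ (by norm_num) (by norm_num)
    have hB0 : 0 ≤ B := by
      have : 0 < (1 / 2 : ℝ) ^ (n + m) := by positivity
      linarith
    have e1 : n + (m + 1) = n + m + 1 := by ring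
    rw [e1]
    constructor
    · nlinarith
    · nlinarith

theorem split (n : ℕ) : ∏ i ∈ range (2 * n), (1 - (1 / 2 : ℝ) ^ (i + 1)) =
    (∏ i ∈ range n, (1 - (1 / 2 : ℝ) ^ (i + 1))) *
      ∏ i ∈ range n, (1 - (1 / 2 : ℝ) ^ (n + i + 1)) := by
  rw [two_mul, Finset.prod_range_add]

theorem RQ (n : ℕ) : (∏ i ∈ range n, (1 - (1 / 2 : ℝ) ^ (2 * i + 1))) *
    (∏ i ∈ range n, (1 + (1 / 2 : ℝ) ^ (i + 1))) =
      ∏ i ∈ range n, (1 - (1 / 2 : ℝ) ^ (n + i + 1)) := by
  have h1 := prods n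
  rw [split n] at h1
  have hW : (∏ i ∈ range n, (1 - (1 / 2 : ℝ) ^ (i + 1))) ≠ 0 := by
    rw [Finset.prod_ne_zero_iff]
    intro i _
    have : (1 / 2 : ℝ) ^ (i + 1) < 1 := pow_lt_one₀ (by norm_num) (by norm_num) (by omega)
    linarith
  apply mul_right_cancel₀ hW
  linarith

theorem RQ_tend : Tendsto (fun n : ℕ => (∏ i ∈ range n, (1 - (1 / 2 : ℝ) ^ (2 * i + 1))) *
    (∏ i ∈ range n, (1 + (1 / 2 : ℝ) ^ (i + 1)))) atTop (𝓝 1) := by
  have h1 : Tendsto (fun n : ℕ => 1 - (1 / 2 : ℝ) ^ n) atTop (𝓝 (1 - 0)) :=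
    tendsto_const_nhds.sub (tendsto_pow_atTop_nhds_zero_of_lt_one (by norm_num) (by norm_num))
  rw [sub_zero] at h1
  refine tendsto_of_tendsto_of_tendsto_of_le_of_le h1 tendsto_const_nhds (fun n => ?_) fun n => ?_
  · show 1 - (1 / 2 : ℝ) ^ n ≤ _
    rw [RQ n]
    have := (tail_ge n n).1
    have h2 : 0 < (1 / 2 : ℝ) ^ (n + n) := by positivity
    linarith
  · show _ ≤ (1 : ℝ)
    rw [RQ n]
    exact (tail_ge n n).2

theorem c4_F : c4 * F 1 = 2 := by
  obtain ⟨hb, _⟩ := Pool.Agent.Y948.CQ.c2_main c4 rfl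
  have hR : Tendsto (fun n : ℕ => ∏ i ∈ range n, (1 - (1 / 2 : ℝ) ^ (2 * i + 1))) atTop
      (𝓝 c4) := by
    rw [tendsto_iff_norm_sub_tendsto_zero]
    refine squeeze_zero (fun n => norm_nonneg _) (fun n => hb n) ?_
    exact tendsto_pow_atTop_nhds_zero_of_lt_one (by norm_num) (by norm_num)
  -- `F 1 = 2 ∏_{i<n} (1 + 2^{-(i+1)}) F (2^{-(n+1)})`
  have hF : ∀ n : ℕ, F 1 = 2 * (∏ i ∈ range n, (1 + (1 / 2 : ℝ) ^ (i + 1))) *
      F ((1 / 2) ^ (n + 1)) := by
    intro n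
    rw [F_prod (n + 1), Finset.prod_range_succ']
    simp only [pow_zero]
    ring
  have h1 : Tendsto (fun n : ℕ => (∏ i ∈ range n, (1 - (1 / 2 : ℝ) ^ (2 * i + 1))) * F 1) atTop
      (𝓝 (c4 * F 1)) := hR.mul_const _
  have h2 : Tendsto (fun n : ℕ => (∏ i ∈ range n, (1 - (1 / 2 : ℝ) ^ (2 * i + 1))) * F 1) atTop
      (𝓝 (2 * 1 * 1)) := by
    have h3 := (RQ_tend.const_mul 2).mul ((tendsto_add_atTop_iff_nat 1).2 F_tend)
    refine h3.congr fun n => ?_
    rw [hF n]
    ring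
  have h4 := tendsto_nhds_unique h1 h2
  linarith

theorem t_KAP : S_KAP := by
  obtain ⟨_, hc0, _, hlo, hup⟩ := Pool.Agent.Y948.CQ.c2_main c4 rfl
  have hse : Summable (fun j : ℕ => a (2 * j)) :=
    a_summable.comp_injective (fun x y h => by simpa using h)
  have hso : Summable (fun j : ℕ => a (2 * j + 1)) :=
    a_summable.comp_injective (i := fun j : ℕ => 2 * j + 1) (fun x y h => by simpa using h)
  set E := ∑' j : ℕ, a (2 * j) with hE
  set O := ∑' j : ℕ, a (2 * j + 1) with hO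
  have h1 : F 1 = E + O := by
    have h2 := F_hasSum (z := 1) (by norm_num)
    simp only [one_pow, mul_one] at h2
    exact h2.unique (hse.hasSum.even_add_odd hso.hasSum)
  have h2 : F (-1) = E - O := by
    have h3 := F_hasSum (z := -1) (by norm_num)
    have h4 : HasSum (fun n => a n * (-1 : ℝ) ^ n) (E + -O) := by
      apply HasSum.even_add_odd
      · have e : (fun k : ℕ => a (2 * k) * (-1 : ℝ) ^ (2 * k)) = fun k => a (2 * k) := by
          funext k
          rw [pow_mul]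
          norm_num
        rw [e]
        exact hse.hasSum
      · have e : (fun k : ℕ => a (2 * k + 1) * (-1 : ℝ) ^ (2 * k + 1)) =
            fun k => -a (2 * k + 1) := by
          funext k
          rw [pow_succ, pow_mul]
          norm_num
        rw [e]
        exact hso.hasSum.neg
    rw [h3.unique h4]
    ring
  have h3 : F (-1) = 0 := by
    rw [F_func (z := -1) (by norm_num)]
    ring
  have h4 := c4_F
  have hEO : E = O := by linarith
  have hE1 : c4 * E = 1 := by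
    rw [h1, ← hEO] at h4
    linarith
  have hO1 : c4 * O = 1 := by rw [← hEO]; exact hE1
  have hs0 : HasSum (fun j : ℕ => kap (2 * j)) 1 := by
    rw [← hE1]
    exact hse.hasSum.mul_left c4
  have hs1 : HasSum (fun j : ℕ => kap (2 * j + 1)) 1 := by
    rw [← hO1]
    exact hso.hasSum.mul_left c4
  have hnn : ∀ n, 0 ≤ kap n := fun n => mul_nonneg hc0.le (a_pos n).le
  refine ⟨⟨hc0, hlo, hup⟩, fun n => ⟨hnn n, ?_⟩, fun e he => ?_⟩
  · rcases Nat.even_or_odd' n with ⟨j, hj | hj⟩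
    · rw [hj]
      exact le_hasSum hs0 j fun i _ => hnn _
    · rw [hj]
      exact le_hasSum hs1 j fun i _ => hnn _
  · interval_cases e
    · exact hs0
    · exact hs1

end Pool.Agent.N495.GK
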